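import Pool.Agent.V11151.PM.Main

/-!
# MP_2354fb_co: a symmetric polytope not combinatorially equivalent to any spectral polytope

`Polytope E` is a full-dimensional convex polytope in the Euclidean space `E`, given by its finite
set of vertices, with barycentre of the vertices at the origin.  `P.edgeGraph` is its edge-graph,
`P.Aut` the set of orthogonal maps that map `P` onto itself, and `VertexTransitive`,
`RealizesGraphSymmetries`, `IrreducibleAut` are the conditions (i), (ii), (iii) of the problem.
`IsSpectral Q`: there are an eigenvalue `θ` of the edge-graph of `Q`, a matrix `Φ` whose columns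
form a basis of the `θ`-eigenspace, and an invertible linear map sending each vertex of `Q` to its
row of `Φ` (so `Q` is mapped onto the `θ`-eigenpolytope).  `CombEquiv P Q`: the face lattices are
isomorphic.

The theorem: there is a polytope `P ⊂ ℝ²⁰` satisfying (i), (ii) and (iii) that is not
combinatorially equivalent to any spectral polytope, of any dimension.  The example is the perfect
matching polytope of the complete graph `K_8`.
-/

namespace Pool.Agent.Results.MP_2354fb_co.NonSpectral

open PM8

theorem result : ∃ P : Polytope (EuclideanSpace ℝ (Fin 20)),
    VertexTransitive P ∧ RealizesGraphSymmetries P ∧ IrreducibleAut P ∧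
    ∀ (m : ℕ) (Q : Polytope (EuclideanSpace ℝ (Fin m))), CombEquiv P Q → ¬ IsSpectral Q :=
  PM8.main

end Pool.Agent.Results.MP_2354fb_co.NonSpectral
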